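import Pool.Agent.W459.ZE.PP

set_option autoImplicit false

/-!
# Sets of points, coordinates and derivatives
-/

open MvPolynomial

namespace Pool.Agent.W459.ZE

/-- Coordinates `(Y, T)` on `L^(m+1)`: the columns of `S` and the vector `e` are the basis, the
rows of `P` and `τ` are the dual basis. If a nonzero polynomial vanishes on `A` then there are
`h` vanishing on `A` and `b ≠ 0` with `b(Y) = α h + β ∂_e h`. -/
theorem exists_coord {L : Type} [Field L] [CharZero L] {m : ℕ}
    (P : Fin m → Fin (m + 1) → L) (τ : Fin (m + 1) → L)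
    (S : Fin m → Fin (m + 1) → L) (e : Fin (m + 1) → L)
    (hPe : ∀ i, ∑ j, P i j * e j = 0) (hτe : ∑ j, τ j * e j = 1)
    (hid : ∀ j k, ∑ i, S i j * P i k + e j * τ k = if j = k then 1 else 0)
    (A : Set (Fin (m + 1) → L)) (h₀ : MvPolynomial (Fin (m + 1)) L) (hh₀ : h₀ ≠ 0)
    (hA : ∀ a ∈ A, eval a h₀ = 0) :
    ∃ (b : MvPolynomial (Fin m) L) (h α β : MvPolynomial (Fin (m + 1)) L), b ≠ 0 ∧
      (∀ a ∈ A, eval a h = 0) ∧
      ∀ x : Fin (m + 1) → L, eval (fun i => ∑ j, P i j * x j) b =
        eval x α * eval x h + eval x β * ∑ j, eval x (pderiv j h) * e j := by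
  classical
  -- the ring homomorphism `Ψ : L[Y][T] → L[X]`
  set ψ : MvPolynomial (Fin m) L →+* MvPolynomial (Fin (m + 1)) L :=
    (aeval (fun i => ∑ j, C (P i j) * X j) :
      MvPolynomial (Fin m) L →ₐ[L] MvPolynomial (Fin (m + 1)) L).toRingHom with hψ
  set T : MvPolynomial (Fin (m + 1)) L := ∑ j, C (τ j) * X j with hT
  set Ψ : Polynomial (MvPolynomial (Fin m) L) →+* MvPolynomial (Fin (m + 1)) L :=
    Polynomial.eval₂RingHom ψ T with hΨ
  have hψX : ∀ i, ψ (X i) = ∑ j, C (P i j) * X j := fun i => aeval_X _ _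
  have hψC : ∀ c : L, ψ (C c) = C c := fun c => by
    change aeval _ (C c) = C c
    rw [aeval_C]; rfl
  have hΨX : Ψ Polynomial.X = T := by simp [hΨ]
  have hΨC : ∀ a, Ψ (Polynomial.C a) = ψ a := fun a => by simp [hΨ]
  -- evaluation
  have hev : ∀ (x : Fin (m + 1) → L) (b : MvPolynomial (Fin m) L),
      eval x (ψ b) = eval (fun i => ∑ j, P i j * x j) b := by
    intro x b
    induction b using MvPolynomial.induction_on with
    | C c => rw [hψC, eval_C, eval_C]
    | add p q hp hq => rw [map_add, map_add, map_add, hp, hq]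
    | mul_X p i hp =>
      rw [map_mul, map_mul, map_mul, hp, hψX, eval_X, map_sum]
      simp
  -- the derivation `D = ∂_e`
  set D : Derivation L (MvPolynomial (Fin (m + 1)) L) (MvPolynomial (Fin (m + 1)) L) :=
    mkDerivation L (fun j => C (e j)) with hD
  have hDX : ∀ j, D (X j) = C (e j) := fun j => mkDerivation_X _ _ _
  have hDapp : ∀ h, D h = ∑ j, C (e j) * pderiv j h := by
    intro h
    induction h using MvPolynomial.induction_on with
    | C c => simp [show D (C c) = 0 from D.map_algebraMap c]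
    | add p q hp hq =>
      rw [map_add, hp, hq, ← Finset.sum_add_distrib]
      refine Finset.sum_congr rfl fun j _ => ?_
      rw [map_add, mul_add]
    | mul_X p i hp =>
      rw [D.leibniz, hp, hDX]
      simp_rw [pderiv_mul, smul_eq_mul, mul_add, Finset.sum_add_distrib]
      have h1 : ∑ j, C (e j) * (p * pderiv j (X i)) = p * C (e i) := by
        rw [Finset.sum_eq_single i]
        · rw [pderiv_X_self]; ring
        · intro k _ hk
          rw [pderiv_X_of_ne (Ne.symm hk)]; ring
        · intro h; exact absurd (Finset.mem_univ i) h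
      have h2 : X i * ∑ j, C (e j) * pderiv j p = ∑ j, C (e j) * (pderiv j p * X i) := by
        rw [Finset.mul_sum]
        refine Finset.sum_congr rfl fun j _ => ?_
        ring
      rw [h1, h2]
      exact add_comm _ _
  have hDC : ∀ c : L, D (C c) = 0 := fun c => D.map_algebraMap c
  have hDCX : ∀ (c : L) (j : Fin (m + 1)), D (C c * X j) = C (c * e j) := by
    intro c j
    rw [D.leibniz, hDC, hDX, smul_zero, add_zero, smul_eq_mul, ← C_mul]
  have hDψX : ∀ i, D (ψ (X i)) = 0 := by
    intro i
    rw [hψX, map_sum]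
    simp_rw [hDCX]
    rw [← map_sum, hPe i, C_0]
  have hDψ : ∀ b, D (ψ b) = 0 := by
    intro b
    induction b using MvPolynomial.induction_on with
    | C c => rw [hψC, hDC]
    | add p q hp hq => rw [map_add, map_add, hp, hq, add_zero]
    | mul_X p i hp =>
      rw [map_mul ψ, D.leibniz, hp, hDψX, smul_zero, smul_zero, add_zero]
  have hDT : D T = 1 := by
    rw [hT, map_sum]
    simp_rw [hDCX]
    rw [← map_sum, hτe, C_1]
  have hDΨ : ∀ H, D (Ψ H) = Ψ (Polynomial.derivative H) := by
    intro H
    induction H using Polynomial.induction_on' with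
    | add p q hp hq => rw [map_add, map_add, hp, hq, Polynomial.derivative_add, map_add]
    | monomial n a =>
      rw [← Polynomial.C_mul_X_pow_eq_monomial, Polynomial.derivative_C_mul_X_pow,
        map_mul Ψ, map_mul Ψ, map_pow Ψ, map_pow Ψ, hΨC, hΨX, hΨC, D.leibniz, hDψ, smul_zero,
        add_zero, D.leibniz_pow, hDT, map_mul ψ, map_natCast ψ]
      simp only [smul_eq_mul, nsmul_eq_mul, mul_one]
      ring
  -- surjectivity of `Ψ`
  have hsurj : Function.Surjective Ψ := by
    intro h
    induction h using MvPolynomial.induction_on with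
    | C c => exact ⟨Polynomial.C (C c), by rw [hΨC, hψC]⟩
    | add p q hp hq =>
      obtain ⟨p', rfl⟩ := hp
      obtain ⟨q', rfl⟩ := hq
      exact ⟨p' + q', map_add _ _ _⟩
    | mul_X p j hp =>
      obtain ⟨p', rfl⟩ := hp
      refine ⟨p' * (Polynomial.C (∑ i, C (S i j) * X i) + Polynomial.C (C (e j)) * Polynomial.X),
        ?_⟩
      rw [map_mul, map_add, map_mul, hΨC, hΨC, hΨX, hψC, map_sum]
      congr 1
      simp_rw [map_mul, hψC, hψX, hT, Finset.mul_sum]
      rw [Finset.sum_comm, ← Finset.sum_add_distrib]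
      have : ∀ k : Fin (m + 1), (∑ i, C (S i j) * (C (P i k) * X k) + C (e j) * (C (τ k) * X k)
          : MvPolynomial (Fin (m + 1)) L) = C (if j = k then 1 else 0) * X k := by
        intro k
        rw [← hid j k, C_add, map_sum, add_mul, Finset.sum_mul]
        congr 1
        · refine Finset.sum_congr rfl fun i _ => ?_
          rw [C_mul, mul_assoc]
        · rw [C_mul, mul_assoc]
      rw [Finset.sum_congr rfl fun k _ => this k, Finset.sum_eq_single j]
      · simp
      · intro k _ hk
        rw [if_neg (Ne.symm hk), C_0, zero_mul]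
      · intro h; exact absurd (Finset.mem_univ j) h
  -- the ideal
  let J₀ : Ideal (MvPolynomial (Fin (m + 1)) L) :=
    { carrier := {h | ∀ a ∈ A, eval a h = 0}
      add_mem' := by
        intro p q hp hq a ha
        rw [map_add, hp a ha, hq a ha, add_zero]
      zero_mem' := by
        intro a ha
        rw [map_zero]
      smul_mem' := by
        intro q b hb a ha
        rw [smul_eq_mul, map_mul, hb a ha, mul_zero] }
  have hJ₀ : J₀.IsRadical := by
    rintro h ⟨n, hn⟩ a ha
    have := hn a ha
    rw [map_pow] at this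
    exact eq_zero_of_pow_eq_zero this
  let J : Ideal (Polynomial (MvPolynomial (Fin m) L)) := J₀.comap Ψ
  have hJ : J.IsRadical := by
    rintro H ⟨n, hn⟩
    apply hJ₀
    refine ⟨n, ?_⟩
    have : Ψ (H ^ n) ∈ J₀ := hn
    rwa [map_pow] at this
  have hJne : J ≠ ⊥ := by
    intro h
    obtain ⟨H, hH⟩ := hsurj h₀
    have hHJ : H ∈ J := by
      change Ψ H ∈ J₀
      rw [hH]
      exact hA
    rw [h, Ideal.mem_bot] at hHJ
    rw [hHJ, map_zero] at hH
    exact hh₀ hH.symm
  obtain ⟨H, hHJ, α, β, b, hb, hC⟩ := exists_const_combination J hJ hJne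
  refine ⟨b, Ψ H, Ψ α, Ψ β, hb, hHJ, ?_⟩
  intro x
  have h1 := congrArg (fun p => eval x (Ψ p)) hC
  simp only [map_add, map_mul, hΨC, hev, ← hDΨ, hDapp] at h1
  rw [h1, map_sum]
  congr 2
  refine Finset.sum_congr rfl fun j _ => ?_
  rw [map_mul, eval_C, mul_comm]

end Pool.Agent.W459.ZE
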