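import Pool.Agent.W459.ZE.Defs

set_option autoImplicit false

/-!
# Four lines with varying cross ratio
-/

open scoped Topology

namespace Pool.Agent.W459.ZE

/-- Four lines through the origin of the plane, with cross ratio `t`. -/
def G (t x y : ℂ) : ℂ := x * y * (x - y) * (x - t * y)

theorem G_smul (t s x y : ℂ) : G t (s * x) (s * y) = s ^ 4 * G t x y := by
  unfold G; ring

/-- The partial derivatives of `G t`. -/
def Gx (t x y : ℂ) : ℂ := 3 * x ^ 2 * y - 2 * (1 + t) * x * y ^ 2 + t * y ^ 3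

def Gy (t x y : ℂ) : ℂ := x ^ 3 - 2 * (1 + t) * x ^ 2 * y + 3 * t * x * y ^ 2

theorem eq_zero_of_grad (t x y : ℂ) (ht : t ≠ 0) (ht' : t ≠ 1) (hG : G t x y = 0)
    (hx : Gx t x y = 0) (hy : Gy t x y = 0) : x = 0 ∧ y = 0 := by
  unfold G at hG
  unfold Gx at hx
  unfold Gy at hy
  have ht1 : t - 1 ≠ 0 := sub_ne_zero.2 ht'
  rcases mul_eq_zero.1 hG with h | h
  · rcases mul_eq_zero.1 h with h | h
    · rcases mul_eq_zero.1 h with h | h
      · subst h
        refine ⟨rfl, ?_⟩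
        have : t * y ^ 3 = 0 := by linear_combination hx
        rcases mul_eq_zero.1 this with h' | h'
        · exact absurd h' ht
        · exact eq_zero_of_pow_eq_zero h'
      · subst h
        refine ⟨?_, rfl⟩
        have : x ^ 3 = 0 := by linear_combination hy
        exact eq_zero_of_pow_eq_zero this
    · have hxy : x = y := sub_eq_zero.1 h
      subst hxy
      have : (t - 1) * x ^ 3 = 0 := by linear_combination hy
      rcases mul_eq_zero.1 this with h' | h'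
      · exact absurd h' ht1
      · have := eq_zero_of_pow_eq_zero h'
        exact ⟨this, this⟩
  · have hxy : x = t * y := sub_eq_zero.1 h
    subst hxy
    have : t * (t - 1) * y ^ 3 = 0 := by linear_combination hx
    rcases mul_eq_zero.1 this with h' | h'
    · exact absurd h' (mul_ne_zero ht ht1)
    · have := eq_zero_of_pow_eq_zero h'
      exact ⟨by rw [this, mul_zero], this⟩

/-- The invariants of the binary quartic `G t`. -/
def I4 (t : ℂ) : ℂ := t ^ 2 - t + 1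

def J4 (t : ℂ) : ℂ := (1 + t) * (2 * t - 1) * (t - 2)

/-- If a linear automorphism maps four lines with cross ratio `t₀` into four lines with cross
ratio `t` then the absolute invariants agree. -/
theorem invariants_eq (t₀ t α β γ δ : ℂ) (h0 : t₀ ≠ 0) (h1 : t₀ ≠ 1) (ht0 : t ≠ 0) (ht1 : t ≠ 1)
    (hdet : α * δ - β * γ ≠ 0) (hA : G t α γ = 0) (hF : G t β δ = 0)
    (hS : G t (α + β) (γ + δ) = 0) (hT : G t (t₀ * α + β) (t₀ * γ + δ) = 0) :
    I4 t ^ 3 * J4 t₀ ^ 2 = I4 t₀ ^ 3 * J4 t ^ 2 := by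
  -- the coefficients of `G t ∘ D`
  obtain ⟨B, C, E, hBCE, hI, hJ⟩ : ∃ B C E : ℂ,
      (∀ x y : ℂ, G t (x * α + y * β) (x * γ + y * δ) =
        G t α γ * x ^ 4 + B * x ^ 3 * y + C * x ^ 2 * y ^ 2 + E * x * y ^ 3 + G t β δ * y ^ 4) ∧
      12 * G t α γ * G t β δ - 3 * B * E + C ^ 2 = (α * δ - β * γ) ^ 4 * I4 t ∧
      72 * G t α γ * C * G t β δ + 9 * B * C * E - 27 * G t α γ * E ^ 2 - 27 * G t β δ * B ^ 2
        - 2 * C ^ 3 = (α * δ - β * γ) ^ 6 * J4 t := by
    -- G = x³y - (1+t) x²y² + t x y³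
    refine ⟨(3 * α ^ 2 * β * γ + α ^ 3 * δ) - (1 + t) * (2 * α * β * γ ^ 2 + 2 * α ^ 2 * γ * δ)
        + t * (β * γ ^ 3 + 3 * α * γ ^ 2 * δ),
      (3 * α * β ^ 2 * γ + 3 * α ^ 2 * β * δ) - (1 + t) * (β ^ 2 * γ ^ 2 + 4 * α * β * γ * δ
        + α ^ 2 * δ ^ 2) + t * (3 * β * γ ^ 2 * δ + 3 * α * γ * δ ^ 2),
      (β ^ 3 * γ + 3 * α * β ^ 2 * δ) - (1 + t) * (2 * β ^ 2 * γ * δ + 2 * α * β * δ ^ 2)
        + t * (3 * β * γ * δ ^ 2 + α * δ ^ 3), ?_, ?_, ?_⟩
    · intro x y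
      unfold G
      ring
    · unfold G I4
      ring
    · unfold G J4
      ring
  have hS' : B + C + E = 0 := by
    have := hBCE 1 1
    simp only [one_mul, hS, hA, hF] at this
    linear_combination -this
  have hT' : t₀ ^ 2 * B + t₀ * C + E = 0 := by
    have := hBCE t₀ 1
    simp only [one_mul, hT, hA, hF] at this
    have h : t₀ * (t₀ ^ 2 * B + t₀ * C + E) = 0 := by linear_combination -this
    exact (mul_eq_zero.1 h).resolve_left h0
  have hC : C = -(t₀ + 1) * B := by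
    have h : (t₀ - 1) * (C + (t₀ + 1) * B) = 0 := by linear_combination hT' - hS'
    have := (mul_eq_zero.1 h).resolve_left (sub_ne_zero.2 h1)
    linear_combination this
  have hE : E = t₀ * B := by linear_combination hS' - hC
  rw [hA, hF, hC, hE] at hI hJ
  have hI' : (α * δ - β * γ) ^ 4 * I4 t = B ^ 2 * I4 t₀ := by
    rw [← hI]; unfold I4; ring
  have hJ' : (α * δ - β * γ) ^ 6 * J4 t = B ^ 3 * J4 t₀ := by
    rw [← hJ]; unfold J4; ring
  have hB : B ≠ 0 := by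
    rintro rfl
    have hIt : I4 t = 0 := by
      have : (α * δ - β * γ) ^ 4 * I4 t = 0 := by rw [hI']; ring
      exact (mul_eq_zero.1 this).resolve_left (pow_ne_zero _ hdet)
    have hJt : J4 t = 0 := by
      have : (α * δ - β * γ) ^ 6 * J4 t = 0 := by rw [hJ']; ring
      exact (mul_eq_zero.1 this).resolve_left (pow_ne_zero _ hdet)
    have h27 : 27 * t ^ 2 * (t - 1) ^ 2 = 4 * I4 t ^ 3 - J4 t ^ 2 := by
      unfold I4 J4; ring
    rw [hIt, hJt] at h27
    have : (27 : ℂ) * t ^ 2 * (t - 1) ^ 2 ≠ 0 :=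
      mul_ne_zero (mul_ne_zero (by norm_num) (pow_ne_zero _ ht0))
        (pow_ne_zero _ (sub_ne_zero.2 ht1))
    apply this
    rw [h27]; ring
  have hk : (α * δ - β * γ) ^ 12 * B ^ 6 *
      (I4 t ^ 3 * J4 t₀ ^ 2 - I4 t₀ ^ 3 * J4 t ^ 2) = 0 := by
    have e1 : ((α * δ - β * γ) ^ 4 * I4 t) ^ 3 * (B ^ 3 * J4 t₀) ^ 2 =
        (B ^ 2 * I4 t₀) ^ 3 * ((α * δ - β * γ) ^ 6 * J4 t) ^ 2 := by rw [hI', hJ']
    linear_combination e1
  have := (mul_eq_zero.1 hk).resolve_left (mul_ne_zero (pow_ne_zero _ hdet) (pow_ne_zero _ hB))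
  exact sub_eq_zero.1 this

/-- The absolute invariant is not constant near any point. -/
theorem not_eventually_invariants_eq (t₀ : ℂ) (h0 : t₀ ≠ 0) (h1 : t₀ ≠ 1)
    (h : ∀ᶠ t in 𝓝 t₀, I4 t ^ 3 * J4 t₀ ^ 2 = I4 t₀ ^ 3 * J4 t ^ 2) : False := by
  let P : Polynomial ℂ := (Polynomial.X ^ 2 - Polynomial.X + 1) ^ 3 * Polynomial.C (J4 t₀ ^ 2)
    - Polynomial.C (I4 t₀ ^ 3) * ((1 + Polynomial.X) * (2 * Polynomial.X - 1) *
      (Polynomial.X - 2)) ^ 2
  have hP : ∀ t, P.eval t = I4 t ^ 3 * J4 t₀ ^ 2 - I4 t₀ ^ 3 * J4 t ^ 2 := by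
    intro t
    simp [P, I4, J4]
  have hP0 : P ≠ 0 := by
    intro h
    have h2 := hP 0
    rw [h, Polynomial.eval_zero] at h2
    have h3 : (27 : ℂ) * t₀ ^ 2 * (t₀ - 1) ^ 2 = 0 := by
      unfold I4 J4 at h2
      linear_combination h2
    exact absurd h3 (mul_ne_zero (mul_ne_zero (by norm_num) (pow_ne_zero _ h0))
      (pow_ne_zero _ (sub_ne_zero.2 h1)))
  have hinf := infinite_of_mem_nhds t₀ h
  apply hinf
  refine (Polynomial.finite_setOfPred_isRoot hP0).subset ?_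
  intro t ht
  change P.eval t = 0
  rw [hP, sub_eq_zero]
  exact ht

end Pool.Agent.W459.ZE
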