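import Mathlib

set_option autoImplicit false

/-!
# Equisingularity of hypersurfaces by generic linear projections, after Zariski
-/

open scoped Topology
open MvPolynomial

namespace Pool.Agent.W459.ZE

section Basic

variable {K : Type} [Field K] {n : ℕ}

/-- The Zariski closure of a set of points of `K^n`. -/
def zcl (A : Set (Fin n → K)) : Set (Fin n → K) :=
  {x | ∀ h : MvPolynomial (Fin n) K, (∀ a ∈ A, eval a h = 0) → eval x h = 0}

/-- Simple points of a (reduced) hypersurface `V ⊆ K^n`: some polynomial which vanishes on `V` has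
a nonzero differential at the point. -/
def IsSimple (V : Set (Fin n → K)) (x : Fin n → K) : Prop :=
  x ∈ V ∧ ∃ h : MvPolynomial (Fin n) K, (∀ a ∈ V, eval a h = 0) ∧ ∃ i, eval x (pderiv i h) ≠ 0

end Basic

/-! ### The generic linear projection -/

/-- The algebraic closure `K^*` of the field `K(u_ij)` of rational functions in the
indeterminates `u_ij`, `1 ≤ i ≤ r`, `1 ≤ j ≤ r + 1`. -/
abbrev Kstar (K : Type) [Field K] (r : ℕ) : Type :=
  AlgebraicClosure (FractionRing (MvPolynomial (Fin r × Fin (r + 1)) K))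

section Proj

variable (K : Type) [Field K] (r : ℕ)

/-- The inclusion of the polynomial ring `K[u]` in `K^*`. -/
noncomputable def polyEmb : MvPolynomial (Fin r × Fin (r + 1)) K →+* Kstar K r :=
  (algebraMap (FractionRing (MvPolynomial (Fin r × Fin (r + 1)) K)) (Kstar K r)).comp
    (algebraMap (MvPolynomial (Fin r × Fin (r + 1)) K)
      (FractionRing (MvPolynomial (Fin r × Fin (r + 1)) K)))

/-- The inclusion of `K` in `K^*`. -/
noncomputable def emb : K →+* Kstar K r := (polyEmb K r).comp C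

variable {K r}

/-- A point of `K^n` as a point of `(K^*)^n`. -/
noncomputable def embPt (x : Fin (r + 1) → K) : Fin (r + 1) → Kstar K r := fun j => emb K r (x j)

/-- The generic linear projection `π^* : (K^*)^(r+1) → (K^*)^r`, with
`X_i^* = ∑_j u_ij X_j`. -/
noncomputable def proj (x : Fin (r + 1) → Kstar K r) : Fin r → Kstar K r :=
  fun i => ∑ j, polyEmb K r (X (i, j)) * x j

/-- The image `π^*(W)` of a closed set `W ⊆ K^(r+1)`: the Zariski closure over `K^*` of the set of
images of the points of `W`. -/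
noncomputable def projSet (W : Set (Fin (r + 1) → K)) : Set (Fin r → Kstar K r) :=
  zcl ((fun w => proj (embPt w)) '' W)

/-- The branch hypersurface `Δ^*` of the generic projection of a hypersurface `V ⊆ K^(r+1)`: the
images of the points `x` of `V` over `K^*` (the Zariski closure of `V` over `K^*`) at which the
kernel of `π^*` is tangent to `V`, i.e. every polynomial over `K^*` which vanishes on `V` has zero
derivative at `x` in the directions of the kernel of `π^*`. -/
def branch (V : Set (Fin (r + 1) → K)) : Set (Fin r → Kstar K r) :=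
  {y | ∃ x ∈ zcl (embPt '' V), proj x = y ∧ ∀ h : MvPolynomial (Fin (r + 1)) (Kstar K r),
    (∀ a ∈ V, eval (embPt a) h = 0) → ∀ v : Fin (r + 1) → Kstar K r, proj v = 0 →
      ∑ i, eval x (pderiv i h) * v i = 0}

end Proj

/-- `Equisingular n K V W Q`: the hypersurface `V ⊆ K^n` is equisingular at `Q` along `W ⊆ V`.
If `W` is not contained in the singular locus of `V` this means that `Q` is a simple point of `V`;
otherwise it means that `Δ^*` is equisingular at `π^*(Q)` along `π^*(W)`. -/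
def Equisingular : ∀ (n : ℕ) (K : Type) [Field K], Set (Fin n → K) → Set (Fin n → K) →
    (Fin n → K) → Prop
  | 0, _, _, _, _, _ => False
  | r + 1, K, _, V, W, Q =>
      ((∃ x ∈ W, IsSimple V x) ∧ IsSimple V Q) ∨
      ((∀ x ∈ W, ¬ IsSimple V x) ∧
        Equisingular r (Kstar K r) (branch V) (projSet W) (proj (embPt Q)))

section Strat

variable {K : Type} [Field K] {n : ℕ}

/-- `Eqs(W/V)`: the points of `W` at which `V` is equisingular along `W`. -/
def Eqs (W V : Set (Fin n → K)) : Set (Fin n → K) := {Q | Q ∈ W ∧ Equisingular n K V W Q}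

/-- Zariski closed subsets of `K^n`. -/
def IsZClosed (Z : Set (Fin n → K)) : Prop := zcl Z = Z

/-- Irreducible closed subsets of `K^n`. -/
def IsIrred (Z : Set (Fin n → K)) : Prop :=
  IsZClosed Z ∧ Z.Nonempty ∧ ∀ Z₁ Z₂ : Set (Fin n → K), IsZClosed Z₁ → IsZClosed Z₂ →
    Z ⊆ Z₁ ∪ Z₂ → Z ⊆ Z₁ ∨ Z ⊆ Z₂

/-- The span of the differentials at `x` of the polynomials which vanish on `Z`. -/
def conormal (Z : Set (Fin n → K)) (x : Fin n → K) : Submodule K (Fin n → K) :=
  Submodule.span K {g | ∃ h : MvPolynomial (Fin n) K, (∀ a ∈ Z, eval a h = 0) ∧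
    g = fun i => eval x (pderiv i h)}

/-- Simple points of an irreducible variety `Z ⊆ K^n` (of any dimension), by the Jacobian
criterion: the points of `Z` where the differentials of the equations of `Z` have maximal rank. -/
def IsSimpleOn (Z : Set (Fin n → K)) (x : Fin n → K) : Prop :=
  x ∈ Z ∧ ∀ y ∈ Z, Module.finrank K (conormal Z y) ≤ Module.finrank K (conormal Z x)

/-- `𝒮` is the equisingular stratification of the hypersurface `V`: a partition of `V` into
strata such that each stratum `S` is a nonempty Zariski open set of simple points of its closure,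
which is irreducible, each boundary is a union of strata, and every `Eqs(W/V)` is `W ∩ S` for some
stratum `S`. -/
structure IsStratification (V : Set (Fin n → K)) (𝒮 : Set (Set (Fin n → K))) : Prop where
  cover : ⋃₀ 𝒮 = V
  disjoint : ∀ S ∈ 𝒮, ∀ S' ∈ 𝒮, S ≠ S' → Disjoint S S'
  stratum : ∀ S ∈ 𝒮, S.Nonempty ∧ IsIrred (zcl S) ∧ IsZClosed (zcl S \ S) ∧
    ∀ x ∈ S, IsSimpleOn (zcl S) x
  boundary : ∀ S ∈ 𝒮, ∃ 𝒯 ⊆ 𝒮, zcl S \ S = ⋃₀ 𝒯
  eqs : ∀ W : Set (Fin n → K), IsIrred W → W ⊆ V → ∃ S ∈ 𝒮, Eqs W V = W ∩ S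

end Strat

/-! ### Local analytic product structures -/

section Analytic

/-- `N` is a neighborhood of the point `p` in the set `A` (Euclidean topology). -/
def IsNbhdIn {E : Type} [TopologicalSpace E] (N A : Set E) (p : E) : Prop :=
  N ⊆ A ∧ p ∈ N ∧ N ∈ 𝓝[A] p

/-- The map `φ` is analytic on the subset `A`: near each point of `A` it is the restriction to `A`
of an analytic map of the ambient spaces. -/
def AnalyticOnSub {E F : Type} [NormedAddCommGroup E] [NormedSpace ℂ E] [NormedAddCommGroup F]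
    [NormedSpace ℂ F] (φ : E → F) (A : Set E) : Prop :=
  ∀ p ∈ A, ∃ Φ : E → F, AnalyticAt ℂ Φ p ∧ ∀ᶠ x in 𝓝[A] p, φ x = Φ x

/-- `φ : A → B` is an analytic isomorphism. -/
def IsAnalyticIso {E F : Type} [NormedAddCommGroup E] [NormedSpace ℂ E] [NormedAddCommGroup F]
    [NormedSpace ℂ F] (φ : E → F) (A : Set E) (B : Set F) : Prop :=
  Set.MapsTo φ A B ∧ AnalyticOnSub φ A ∧ ∃ ψ : F → E, Set.MapsTo ψ B A ∧ AnalyticOnSub ψ B ∧
    (∀ a ∈ A, ψ (φ a) = a) ∧ ∀ b ∈ B, φ (ψ b) = b

/-- Let `T : V^* → V` be a blowing-up (in an affine chart `ℂ^n` of the blown-up space), `W₁` the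
equisingular part of its centre, `S` a stratum of `T⁻¹(W₁)` and `Qs` a point of `S`, with
`Q = T(Qs)`. `HasProduct T W₁ S Qs`: there are neighborhoods `N₁` of `Q` in `W₁`, `N₂` of `Qs` in
`T⁻¹(Q) ∩ S` and `N₃` of `Qs` in `S`, and an analytic isomorphism `φ : N₁ × N₂ → N₃` with
`T ∘ φ` the first projection. -/
def HasProduct {n : ℕ} (T : (Fin n → ℂ) → (Fin n → ℂ)) (W₁ S : Set (Fin n → ℂ))
    (Qs : Fin n → ℂ) : Prop :=
  ∃ N₁ N₂ N₃ : Set (Fin n → ℂ), IsNbhdIn N₁ W₁ (T Qs) ∧ IsNbhdIn N₂ (T ⁻¹' {T Qs} ∩ S) Qs ∧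
    IsNbhdIn N₃ S Qs ∧ ∃ φ : (Fin n → ℂ) × (Fin n → ℂ) → (Fin n → ℂ),
      IsAnalyticIso φ (N₁ ×ˢ N₂) N₃ ∧ ∀ p ∈ N₁ ×ˢ N₂, T (φ p) = p.1

/-- The blowing-up of `ℂ^4`, with coordinates `(t, x, y, z)`, along the line `x = y = z = 0`, in its
affine chart with coordinates `(t, x/z, y/z, z)`. -/
def blowUpChart (q : Fin 4 → ℂ) : Fin 4 → ℂ := ![q 0, q 1 * q 3, q 2 * q 3, q 3]

/-- The blowing-up `V^*` of a hypersurface `V ⊆ ℂ^4` along the line `W : x = y = z = 0`, in the
chart `blowUpChart`: the Zariski closure of the preimage of `V \ W`. -/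
def strictTransform (V : Set (Fin 4 → ℂ)) : Set (Fin 4 → ℂ) :=
  zcl (blowUpChart ⁻¹' (V \ {p | p 1 = 0 ∧ p 2 = 0 ∧ p 3 = 0}))

end Analytic

end Pool.Agent.W459.ZE
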