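import Pool.Agent.W459.ZE.Cross

set_option autoImplicit false

/-!
# No local analytic product structure
-/

open scoped Topology

namespace Pool.Agent.W459.ZE

theorem G_hasDerivAt (t : ℂ) (b₁ b₂ : ℂ → ℂ) (b₁' b₂' : ℂ) (h₁ : HasDerivAt b₁ b₁' 0)
    (h₂ : HasDerivAt b₂ b₂' 0) :
    HasDerivAt (fun s => G t (b₁ s) (b₂ s))
      (Gx t (b₁ 0) (b₂ 0) * b₁' + Gy t (b₁ 0) (b₂ 0) * b₂') 0 := by
  have h := (((h₁.fun_mul h₂).fun_mul (h₁.fun_sub h₂)).fun_mul (h₁.fun_sub (h₂.const_mul t)))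
  unfold G
  exact h.congr_deriv (by unfold Gx Gy; ring)

/-- The data extracted from a product structure at the point `(t₀, 0, 0, 0)`. -/
theorem rigid (t₀ t : ℂ) (h0 : t₀ ≠ 0) (h1 : t₀ ≠ 1) (ht0 : t ≠ 0) (ht1 : t ≠ 1)
    (A₂ N₂ N₃ : Set (Fin 4 → ℂ)) (N : Set ((Fin 4 → ℂ) × (Fin 4 → ℂ)))
    (Qt : Fin 4 → ℂ) (φ : (Fin 4 → ℂ) × (Fin 4 → ℂ) → (Fin 4 → ℂ))
    (ψ : (Fin 4 → ℂ) → (Fin 4 → ℂ) × (Fin 4 → ℂ))
    (hN₂ : N₂ ∈ 𝓝[A₂] ![t₀, 0, 0, 0]) (hN₂m : ![t₀, 0, 0, 0] ∈ N₂)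
    (hA₂ : ∀ x y : ℂ, G t₀ x y = 0 → ![t₀, x, y, 0] ∈ A₂)
    (hN : ∀ q ∈ N₂, (Qt, q) ∈ N)
    (hmaps : Set.MapsTo φ N N₃) (hφ : AnalyticOnSub φ N) (hψ : AnalyticOnSub ψ N₃)
    (hinv : ∀ a ∈ N, ψ (φ a) = a)
    (hfib : ∀ q ∈ N₂, φ (Qt, q) 0 = t ∧ φ (Qt, q) 3 = 0 ∧
      G t (φ (Qt, q) 1) (φ (Qt, q) 2) = 0) :
    I4 t ^ 3 * J4 t₀ ^ 2 = I4 t₀ ^ 3 * J4 t ^ 2 := by
  set q₀ : Fin 4 → ℂ := ![t₀, 0, 0, 0] with hq₀
  have hp : (Qt, q₀) ∈ N := hN _ hN₂m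
  obtain ⟨Φ, hΦ, hΦeq⟩ := hφ _ hp
  obtain ⟨Ψ, hΨ, hΨeq⟩ := hψ _ (hmaps hp)
  have hΦd := hΦ.differentiableAt.hasFDerivAt
  have hΨd := hΨ.differentiableAt.hasFDerivAt
  set Φ' := fderiv ℂ Φ (Qt, q₀) with hΦ'
  set Ψ' := fderiv ℂ Ψ (φ (Qt, q₀)) with hΨ'
  -- the curves
  have curve : ∀ x y : ℂ, G t₀ x y = 0 →
      (Φ' (0, ![0, x, y, 0])) 0 = 0 ∧ (Φ' (0, ![0, x, y, 0])) 3 = 0 ∧
      Ψ' (Φ' (0, ![0, x, y, 0])) = (0, ![0, x, y, 0]) ∧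
      (Gx t (φ (Qt, q₀) 1) (φ (Qt, q₀) 2) * (Φ' (0, ![0, x, y, 0])) 1 +
        Gy t (φ (Qt, q₀) 1) (φ (Qt, q₀) 2) * (Φ' (0, ![0, x, y, 0])) 2 = 0) ∧
      (φ (Qt, q₀) 1 = 0 → φ (Qt, q₀) 2 = 0 →
        G t ((Φ' (0, ![0, x, y, 0])) 1) ((Φ' (0, ![0, x, y, 0])) 2) = 0) := by
    intro x y hxy
    set c : ℂ → (Fin 4 → ℂ) := fun s => ![t₀, s * x, s * y, 0] with hc
    have hc0 : c 0 = q₀ := by simp [hc, hq₀]
    have hcd : HasDerivAt c ![0, x, y, 0] 0 := by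
      rw [hasDerivAt_pi]
      intro i
      fin_cases i
      · exact hasDerivAt_const _ _
      · simpa [hc] using (hasDerivAt_id (0 : ℂ)).mul_const x
      · simpa [hc] using (hasDerivAt_id (0 : ℂ)).mul_const y
      · exact hasDerivAt_const _ _
    have hcA : ∀ s, c s ∈ A₂ := fun s => hA₂ _ _ (by rw [G_smul, hxy, mul_zero])
    have hcN : ∀ᶠ s in 𝓝 (0 : ℂ), c s ∈ N₂ := by
      have h1 : Filter.Tendsto c (𝓝 0) (𝓝[A₂] q₀) := by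
        rw [tendsto_nhdsWithin_iff]
        refine ⟨?_, Filter.Eventually.of_forall hcA⟩
        rw [← hc0]
        exact hcd.continuousAt
      exact h1 hN₂
    set pc : ℂ → (Fin 4 → ℂ) × (Fin 4 → ℂ) := fun s => (Qt, c s) with hpc
    have hpcd : HasDerivAt pc (0, ![0, x, y, 0]) 0 := (hasDerivAt_const _ _).prodMk hcd
    have hpc0 : pc 0 = (Qt, q₀) := by rw [hpc]; simp only [hc0]
    set b : ℂ → (Fin 4 → ℂ) := fun s => φ (pc s) with hb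
    have hb0 : b 0 = φ (Qt, q₀) := by rw [hb]; simp only [hpc0]
    have hbΦ : b =ᶠ[𝓝 0] fun s => Φ (pc s) := by
      have h1 : Filter.Tendsto pc (𝓝 0) (𝓝[N] (Qt, q₀)) := by
        rw [tendsto_nhdsWithin_iff]
        refine ⟨?_, hcN.mono fun s hs => hN _ hs⟩
        rw [← hpc0]
        exact hpcd.continuousAt
      exact h1.eventually hΦeq
    have hbd : HasDerivAt b (Φ' (0, ![0, x, y, 0])) 0 := by
      have h1 : HasDerivAt (fun s => Φ (pc s)) (Φ' (0, ![0, x, y, 0])) 0 := by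
        have h2 : HasFDerivAt Φ Φ' (pc 0) := by rw [hpc0]; exact hΦd
        exact h2.comp_hasDerivAt (0 : ℂ) hpcd
      exact h1.congr_of_eventuallyEq hbΦ
    have hbcomp : ∀ i, HasDerivAt (fun s => b s i) (Φ' (0, ![0, x, y, 0]) i) 0 :=
      fun i => (hasDerivAt_pi.1 hbd) i
    have hbf : ∀ᶠ s in 𝓝 (0 : ℂ), b s 0 = t ∧ b s 3 = 0 ∧ G t (b s 1) (b s 2) = 0 :=
      hcN.mono fun s hs => hfib _ hs
    refine ⟨?_, ?_, ?_, ?_, ?_⟩
    · exact (hbcomp 0).unique ((hasDerivAt_const (0 : ℂ) t).congr_of_eventuallyEq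
        (hbf.mono fun s hs => hs.1))
    · exact (hbcomp 3).unique ((hasDerivAt_const (0 : ℂ) (0 : ℂ)).congr_of_eventuallyEq
        (hbf.mono fun s hs => hs.2.1))
    · have h1 : Filter.Tendsto b (𝓝 0) (𝓝[N₃] (φ (Qt, q₀))) := by
        rw [tendsto_nhdsWithin_iff]
        refine ⟨?_, hcN.mono fun s hs => hmaps (hN _ hs)⟩
        rw [← hb0]
        exact hbd.continuousAt
      have h2 : (fun s => Ψ (b s)) =ᶠ[𝓝 0] pc := by
        filter_upwards [h1.eventually hΨeq, hcN] with s hs hs'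
        rw [← hs]
        exact hinv _ (hN _ hs')
      have h3 : HasDerivAt (fun s => Ψ (b s)) (Ψ' (Φ' (0, ![0, x, y, 0]))) 0 := by
        have h4 : HasFDerivAt Ψ Ψ' (b 0) := by rw [hb0]; exact hΨd
        exact h4.comp_hasDerivAt (0 : ℂ) hbd
      exact h3.unique (hpcd.congr_of_eventuallyEq h2)
    · have h1 := G_hasDerivAt t _ _ _ _ (hbcomp 1) (hbcomp 2)
      simp only [hb0] at h1
      exact h1.unique ((hasDerivAt_const (0 : ℂ) (0 : ℂ)).congr_of_eventuallyEq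
        (hbf.mono fun s hs => hs.2.2))
    · intro ha1 ha2
      have hs1 := (hasDerivAt_iff_tendsto_slope.1 (hbcomp 1))
      have hs2 := (hasDerivAt_iff_tendsto_slope.1 (hbcomp 2))
      have hG : Filter.Tendsto (fun s => G t (slope (fun s => b s 1) 0 s)
          (slope (fun s => b s 2) 0 s)) (𝓝[≠] 0)
          (𝓝 (G t ((Φ' (0, ![0, x, y, 0])) 1) ((Φ' (0, ![0, x, y, 0])) 2))) := by
        unfold G
        exact ((hs1.mul hs2).mul (hs1.sub hs2)).mul (hs1.sub (hs2.const_mul t))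
      have hz : (fun s => G t (slope (fun s => b s 1) 0 s) (slope (fun s => b s 2) 0 s))
          =ᶠ[𝓝[≠] 0] fun _ => (0 : ℂ) := by
        filter_upwards [hbf.filter_mono nhdsWithin_le_nhds, self_mem_nhdsWithin] with s hs hs0
        have hs0' : s ≠ 0 := hs0
        simp only [slope, vsub_eq_sub, sub_zero, smul_eq_mul, hb0, ha1, ha2]
        rw [G_smul, hs.2.2, mul_zero]
      exact tendsto_nhds_unique (hG.congr' hz) tendsto_const_nhds |>.symm ▸ rfl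
  -- the matrix of the derivative
  set v₁ := Φ' (0, ![0, 1, 0, 0]) with hv₁
  set v₂ := Φ' (0, ![0, 0, 1, 0]) with hv₂
  have hlin : ∀ x y : ℂ, Φ' (0, ![0, x, y, 0]) = x • v₁ + y • v₂ := by
    intro x y
    rw [hv₁, hv₂, ← map_smul, ← map_smul, ← map_add]
    congr 1
    ext i
    · simp
    · fin_cases i <;> simp
  have c1 := curve 1 0 (by unfold G; ring)
  have c2 := curve 0 1 (by unfold G; ring)
  have c3 := curve 1 1 (by unfold G; ring)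
  have c4 := curve t₀ 1 (by unfold G; ring)
  rw [← hv₁] at c1
  rw [← hv₂] at c2
  obtain ⟨c10, c13, c1Ψ, c1g, c1G⟩ := c1
  obtain ⟨c20, c23, c2Ψ, c2g, c2G⟩ := c2
  obtain ⟨-, -, -, -, c3G⟩ := c3
  obtain ⟨-, -, -, -, c4G⟩ := c4
  have hdet : v₁ 1 * v₂ 2 - v₂ 1 * v₁ 2 ≠ 0 := by
    intro hdet
    have hz : ∀ x y : ℂ, x * v₁ 1 + y * v₂ 1 = 0 → x * v₁ 2 + y * v₂ 2 = 0 → x = 0 ∧ y = 0 := by
      intro x y hx hy
      have h1 : x • v₁ + y • v₂ = 0 := by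
        funext i
        fin_cases i
        · simp [c10, c20]
        · simpa using hx
        · simpa using hy
        · simp [c13, c23]
      have h2 : Ψ' (x • v₁ + y • v₂) = x • (0, ![0, 1, 0, 0]) + y • (0, ![0, 0, 1, 0]) := by
        rw [map_add, map_smul, map_smul, c1Ψ, c2Ψ]
      rw [h1, map_zero] at h2
      have h3 := congrArg (fun p : (Fin 4 → ℂ) × (Fin 4 → ℂ) => p.2 1) h2
      have h4 := congrArg (fun p : (Fin 4 → ℂ) × (Fin 4 → ℂ) => p.2 2) h2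
      simp at h3 h4
      exact ⟨h3.symm, h4.symm⟩
    obtain ⟨e1, e2⟩ := hz (v₂ 2) (-v₁ 2) (by linear_combination hdet) (by ring)
    obtain ⟨e3, e4⟩ := hz (v₂ 1) (-v₁ 1) (by ring) (by linear_combination -hdet)
    obtain ⟨e5, -⟩ := hz 1 0 (by linear_combination -e4) (by linear_combination -e2)
    exact one_ne_zero e5
  -- the fourfold point goes to the fourfold point
  have hgrad : Gx t (φ (Qt, q₀) 1) (φ (Qt, q₀) 2) = 0 ∧
      Gy t (φ (Qt, q₀) 1) (φ (Qt, q₀) 2) = 0 := by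
    constructor
    · have : (v₁ 1 * v₂ 2 - v₂ 1 * v₁ 2) * Gx t (φ (Qt, q₀) 1) (φ (Qt, q₀) 2) = 0 := by
        linear_combination v₂ 2 * c1g - v₁ 2 * c2g
      exact (mul_eq_zero.1 this).resolve_left hdet
    · have : (v₁ 1 * v₂ 2 - v₂ 1 * v₁ 2) * Gy t (φ (Qt, q₀) 1) (φ (Qt, q₀) 2) = 0 := by
        linear_combination v₁ 1 * c2g - v₂ 1 * c1g
      exact (mul_eq_zero.1 this).resolve_left hdet
  obtain ⟨ha1, ha2⟩ := eq_zero_of_grad t _ _ ht0 ht1 (hfib _ hN₂m).2.2 hgrad.1 hgrad.2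
  have hG1 := c1G ha1 ha2
  have hG2 := c2G ha1 ha2
  have hG3 := c3G ha1 ha2
  have hG4 := c4G ha1 ha2
  rw [hlin] at hG3 hG4
  simp only [Pi.add_apply, Pi.smul_apply, smul_eq_mul, one_mul] at hG3 hG4
  exact invariants_eq t₀ t (v₁ 1) (v₂ 1) (v₁ 2) (v₂ 2) h0 h1 ht0 ht1 hdet hG1 hG2 hG3 hG4

end Pool.Agent.W459.ZE
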