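import Pool.Agent.W459.ZE.Line
import Pool.Agent.W459.ZE.Product

set_option autoImplicit false

/-!
# The example
-/

open MvPolynomial
open scoped Topology

namespace Pool.Agent.W459.ZE

section Irred

variable {K : Type} [Field K] [Infinite K]

omit [Infinite K] in
theorem subset_zcl {n : ℕ} (A : Set (Fin n → K)) : A ⊆ zcl A := fun _ hx _ hh => hh _ hx

/-- The image of an affine space under a polynomial map is irreducible, if it is closed. -/
theorem isIrred_of_param {m n : ℕ} (g : Fin n → MvPolynomial (Fin m) K) (Z : Set (Fin n → K))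
    (hZc : IsZClosed Z) (hZ : Z = Set.range fun v : Fin m → K => fun j => eval v (g j)) :
    IsIrred Z := by
  refine ⟨hZc, ?_, ?_⟩
  · rw [hZ]; exact Set.range_nonempty _
  · intro Z₁ Z₂ h₁ h₂ hsub
    by_contra hcon
    push Not at hcon
    obtain ⟨hn1, hn2⟩ := hcon
    obtain ⟨x₁, hx₁, hx₁'⟩ := Set.not_subset.1 hn1
    obtain ⟨x₂, hx₂, hx₂'⟩ := Set.not_subset.1 hn2
    rw [← h₁] at hx₁'
    rw [← h₂] at hx₂'
    simp only [zcl, Set.mem_ofPred_eq, not_forall] at hx₁' hx₂'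
    obtain ⟨p₁, hp₁, hp₁'⟩ := hx₁'
    obtain ⟨p₂, hp₂, hp₂'⟩ := hx₂'
    have hev : ∀ (p : MvPolynomial (Fin n) K) (v : Fin m → K),
        eval v (aeval g p) = eval (fun j => eval v (g j)) p := by
      intro p v
      induction p using MvPolynomial.induction_on with
      | C c => simp
      | add p q hp hq => rw [map_add, map_add, map_add, hp, hq]
      | mul_X p j hp => rw [map_mul, map_mul, map_mul, hp, aeval_X, eval_X]
    have hprod : (aeval g p₁ : MvPolynomial (Fin m) K) * aeval g p₂ = 0 := by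
      apply MvPolynomial.funext
      intro v
      rw [map_mul, hev, hev, map_zero]
      have hv : (fun j => eval v (g j)) ∈ Z := by rw [hZ]; exact ⟨v, rfl⟩
      rcases hsub hv with h | h
      · rw [hp₁ _ h, zero_mul]
      · rw [hp₂ _ h, mul_zero]
    rw [hZ] at hx₁ hx₂
    obtain ⟨v₁, rfl⟩ := hx₁
    obtain ⟨v₂, rfl⟩ := hx₂
    rcases mul_eq_zero.1 hprod with h | h
    · apply hp₁'
      rw [← hev, h, map_zero]
    · apply hp₂'
      rw [← hev, h, map_zero]

end Irred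

/-- The four lines as a polynomial in `(t, x, y, z)`. -/
noncomputable def GP : MvPolynomial (Fin 4) ℂ := X 1 * X 2 * (X 1 - X 2) * (X 1 - X 0 * X 2)

theorem eval_GP (q : Fin 4 → ℂ) : eval q GP = G (q 0) (q 1) (q 2) := by
  simp [GP, G]

/-- The hypersurface `V`. -/
def VV : Set (Fin 4 → ℂ) :=
  {p | p 1 * p 2 * (p 1 - p 2) * (p 1 - p 0 * p 2) + p 3 ^ 5 = 0}

/-- The line `W`. -/
def WW : Set (Fin 4 → ℂ) := {p | p 1 = 0 ∧ p 2 = 0 ∧ p 3 = 0}

/-- The strict transform of `V`. -/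
def VS : Set (Fin 4 → ℂ) := {q | q 1 * q 2 * (q 1 - q 2) * (q 1 - q 0 * q 2) + q 3 = 0}

theorem mem_VS (q : Fin 4 → ℂ) : q ∈ VS ↔ eval q (GP + X 3) = 0 := by
  rw [map_add, eval_GP, eval_X]
  rfl

/-- The substitution `z ↦ - G`. -/
noncomputable def sub3 : MvPolynomial (Fin 4) ℂ →ₐ[ℂ] MvPolynomial (Fin 4) ℂ :=
  aeval ![X 0, X 1, X 2, -GP]

theorem eval_sub3 (h : MvPolynomial (Fin 4) ℂ) (q : Fin 4 → ℂ) :
    eval q (sub3 h) = eval ![q 0, q 1, q 2, -G (q 0) (q 1) (q 2)] h := by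
  induction h using MvPolynomial.induction_on with
  | C c => simp [sub3]
  | add p q hp hq => rw [map_add, map_add, map_add, hp, hq]
  | mul_X p j hp =>
    rw [map_mul, map_mul, map_mul, hp, sub3, aeval_X, eval_X]
    congr 1
    fin_cases j <;> simp [eval_GP]

theorem dvd_sub_sub3 (h : MvPolynomial (Fin 4) ℂ) : (GP + X 3) ∣ h - sub3 h := by
  induction h using MvPolynomial.induction_on with
  | C c => simp [sub3]
  | add p q hp hq =>
    rw [map_add]
    have := dvd_add hp hq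
    convert this using 1
    ring
  | mul_X p j hp =>
    have hX : (GP + X 3) ∣ (X j : MvPolynomial (Fin 4) ℂ) - sub3 (X j) := by
      rw [sub3, aeval_X]
      fin_cases j
      · simp
      · simp
      · simp
      · refine ⟨1, ?_⟩
        simp
        ring
    rw [map_mul]
    have h1 : p * X j - sub3 p * sub3 (X j) =
        (p - sub3 p) * X j + sub3 p * (X j - sub3 (X j)) := by ring
    rw [h1]
    exact dvd_add (hp.mul_right _) (hX.mul_left _)

theorem point_mem_VS (a b c : ℂ) : ![a, b, c, -G a b c] ∈ VS := by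
  rw [mem_VS, map_add, eval_GP, eval_X]
  simp

theorem sub3_eq_zero (h : MvPolynomial (Fin 4) ℂ) (hh : ∀ q ∈ VS, eval q h = 0) : sub3 h = 0 := by
  apply MvPolynomial.funext
  intro q
  rw [eval_sub3, map_zero]
  exact hh _ (point_mem_VS _ _ _)

theorem dvd_of_vanish (h : MvPolynomial (Fin 4) ℂ) (hh : ∀ q ∈ VS, eval q h = 0) :
    (GP + X 3) ∣ h := by
  have := dvd_sub_sub3 h
  rwa [sub3_eq_zero h hh, sub_zero] at this

theorem GP_ne_zero : GP ≠ 0 := by
  intro h
  have h1 : eval ![2, 3, 1, 0] GP = 0 := by rw [h, map_zero]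
  rw [eval_GP] at h1
  simp [G] at h1
  norm_num at h1

theorem strictTransform_VV : strictTransform VV = VS := by
  have hkey : ∀ q : Fin 4 → ℂ, q 3 ≠ 0 → (blowUpChart q ∈ VV \ WW ↔ q ∈ VS) := by
    intro q hq
    constructor
    · rintro ⟨h1, -⟩
      have h2 : q 3 ^ 4 * (q 1 * q 2 * (q 1 - q 2) * (q 1 - q 0 * q 2) + q 3) = 0 := by
        have : (q 1 * q 3) * (q 2 * q 3) * (q 1 * q 3 - q 2 * q 3) *
          (q 1 * q 3 - q 0 * (q 2 * q 3)) + q 3 ^ 5 = 0 := h1
        linear_combination this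
      exact (mul_eq_zero.1 h2).resolve_left (pow_ne_zero _ hq)
    · intro h1
      have h2 : q 1 * q 2 * (q 1 - q 2) * (q 1 - q 0 * q 2) + q 3 = 0 := h1
      refine ⟨?_, fun h => hq h.2.2⟩
      change (q 1 * q 3) * (q 2 * q 3) * (q 1 * q 3 - q 2 * q 3) *
          (q 1 * q 3 - q 0 * (q 2 * q 3)) + q 3 ^ 5 = 0
      linear_combination q 3 ^ 4 * h2
  have hq3 : ∀ q : Fin 4 → ℂ, blowUpChart q ∈ VV \ WW → q 3 ≠ 0 := by
    rintro q ⟨-, h⟩ h3
    apply h
    refine ⟨?_, ?_, ?_⟩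
    · change q 1 * q 3 = 0
      rw [h3, mul_zero]
    · change q 2 * q 3 = 0
      rw [h3, mul_zero]
    · exact h3
  change zcl (blowUpChart ⁻¹' (VV \ WW)) = VS
  apply Set.Subset.antisymm
  · intro x hx
    rw [mem_VS]
    apply hx
    intro a ha
    rw [← mem_VS]
    exact (hkey a (hq3 a ha)).1 ha
  · intro x hx h hh
    have h1 : sub3 (h * X 3) = 0 := by
      apply sub3_eq_zero
      intro q hq
      rw [map_mul, eval_X]
      by_cases h3 : q 3 = 0
      · rw [h3, mul_zero]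
      · rw [hh q ((hkey q h3).2 hq), zero_mul]
    have h2 : sub3 h = 0 := by
      rw [map_mul] at h1
      rcases mul_eq_zero.1 h1 with h | h
      · exact h
      · exfalso
        apply GP_ne_zero
        rw [sub3, aeval_X] at h
        simpa using h
    have h3 := dvd_sub_sub3 h
    rw [h2, sub_zero] at h3
    obtain ⟨k, hk⟩ := h3
    rw [hk, map_mul, (mem_VS x).1 hx, zero_mul]

theorem isZClosed_VS : IsZClosed VS := by
  apply Set.Subset.antisymm _ (subset_zcl _)
  intro x hx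
  rw [mem_VS]
  apply hx
  intro a ha
  exact (mem_VS a).1 ha

theorem isIrred_VS : IsIrred VS := by
  apply isIrred_of_param (m := 3) ![X 0, X 1, X 2,
    -(X 1 * X 2 * (X 1 - X 2) * (X 1 - X 0 * X 2))] VS isZClosed_VS
  ext q
  constructor
  · intro hq
    refine ⟨![q 0, q 1, q 2], ?_⟩
    have hq' : q 1 * q 2 * (q 1 - q 2) * (q 1 - q 0 * q 2) + q 3 = 0 := hq
    funext j
    fin_cases j
    · simp
    · simp
    · simp
    · simp
      linear_combination -hq'
  · rintro ⟨v, rfl⟩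
    change _ + _ = (0 : ℂ)
    simp

theorem pderiv3 (q : Fin 4 → ℂ) : eval q (pderiv 3 (GP + X 3)) = 1 := by
  have h1 : pderiv (3 : Fin 4) GP = 0 := by
    unfold GP
    simp only [pderiv_mul, map_sub]
    simp
  rw [map_add, h1, pderiv_X_self, zero_add, map_one]

theorem isSimple_VS (q : Fin 4 → ℂ) (hq : q ∈ VS) : IsSimple VS q :=
  ⟨hq, GP + X 3, fun a ha => (mem_VS a).1 ha, 3, by rw [pderiv3]; exact one_ne_zero⟩

theorem conormal_VS (q : Fin 4 → ℂ) (hq : q ∈ VS) :
    Module.finrank ℂ (conormal VS q) = 1 := by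
  have h1 : conormal VS q = Submodule.span ℂ {fun i => eval q (pderiv i (GP + X 3))} := by
    apply le_antisymm
    · apply Submodule.span_le.2
      rintro _ ⟨h, hh, rfl⟩
      obtain ⟨k, rfl⟩ := dvd_of_vanish h hh
      apply Submodule.mem_span_singleton.2
      refine ⟨eval q k, ?_⟩
      funext i
      rw [Pi.smul_apply, smul_eq_mul, pderiv_mul, map_add (eval q), map_mul (eval q),
        map_mul (eval q), (mem_VS q).1 hq]
      ring
    · apply Submodule.span_le.2
      rintro _ rfl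
      exact Submodule.subset_span ⟨GP + X 3, fun a ha => (mem_VS a).1 ha, rfl⟩
  rw [h1]
  apply finrank_span_singleton
  intro h
  have := congrFun h 3
  rw [pderiv3] at this
  exact one_ne_zero this

theorem Eqs_VS (W : Set (Fin 4 → ℂ)) (hW : W ⊆ VS) : Eqs W VS = W := by
  apply Set.Subset.antisymm
  · intro Q hQ
    exact hQ.1
  · intro Q hQ
    exact ⟨hQ, Or.inl ⟨⟨Q, hQ, isSimple_VS Q (hW hQ)⟩, isSimple_VS Q (hW hQ)⟩⟩

theorem isStratification_VS (𝒮 : Set (Set (Fin 4 → ℂ))) :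
    IsStratification VS 𝒮 ↔ 𝒮 = {VS} := by
  constructor
  · intro h
    obtain ⟨S, hS, hE⟩ := h.eqs VS isIrred_VS subset_rfl
    rw [Eqs_VS VS subset_rfl] at hE
    have hSV : S = VS := by
      apply Set.Subset.antisymm
      · rw [← h.cover]
        exact Set.subset_sUnion_of_mem hS
      · rw [hE]
        exact Set.inter_subset_right
    ext S'
    rw [Set.mem_singleton_iff]
    constructor
    · intro hS'
      by_contra hne
      have hd := h.disjoint S' hS' S hS (by rw [hSV]; exact hne)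
      obtain ⟨x, hx⟩ := (h.stratum S' hS').1
      have hxV : x ∈ VS := by
        rw [← h.cover]
        exact ⟨S', hS', hx⟩
      rw [← hSV] at hxV
      exact Set.disjoint_left.1 hd hx hxV
    · rintro rfl
      rw [← hSV]
      exact hS
  · rintro rfl
    have hz : zcl VS = VS := isZClosed_VS
    refine ⟨Set.sUnion_singleton _, ?_, ?_, ?_, ?_⟩
    · rintro S rfl S' rfl h
      exact absurd rfl h
    · rintro S rfl
      refine ⟨isIrred_VS.2.1, by rw [hz]; exact isIrred_VS, ?_, ?_⟩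
      · rw [hz, Set.sdiff_self]
        apply Set.Subset.antisymm _ (Set.empty_subset _)
        intro x hx
        have := hx 1 (fun a ha => absurd ha (Set.notMem_empty a))
        rw [map_one] at this
        exact absurd this one_ne_zero
      · intro x hx
        rw [hz]
        refine ⟨hx, fun y hy => ?_⟩
        rw [conormal_VS x hx, conormal_VS y hy]
    · rintro S rfl
      refine ⟨∅, Set.empty_subset _, ?_⟩
      rw [hz, Set.sdiff_self, Set.sUnion_empty]
    · intro W _ hW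
      exact ⟨VS, rfl, by rw [Eqs_VS W hW, Set.inter_eq_left.2 hW]⟩

theorem WW_eq_line : WW = line (![1, 0, 0, 0] : Fin 4 → ℂ) := by
  ext p
  constructor
  · rintro ⟨h1, h2, h3⟩
    refine ⟨p 0, ?_⟩
    funext j
    fin_cases j
    · simp
    · simpa using h1
    · simpa using h2
    · simpa using h3
  · rintro ⟨t, rfl⟩
    refine ⟨?_, ?_, ?_⟩ <;> simp

theorem smul_e (t : ℂ) : t • (![1, 0, 0, 0] : Fin 4 → ℂ) = ![t, 0, 0, 0] := by
  simp

theorem finite_not_Eqs : {t : ℂ | ![t, 0, 0, 0] ∉ Eqs WW VV}.Finite := by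
  have h := finite_not_equisingular 2 ℂ VV ![1, 0, 0, 0] (by
    intro h
    have := congrFun h 0
    simp at this) (by
    intro t
    rw [smul_e]
    change _ + _ = (0 : ℂ)
    simp) ⟨GP + X 3 ^ 5, by
      intro h
      have h1 : eval ![0, 0, 0, 1] (GP + X 3 ^ 5) = 0 := by rw [h, map_zero]
      rw [map_add, eval_GP, map_pow, eval_X] at h1
      simp [G] at h1, by
      intro a ha
      rw [map_add, eval_GP, map_pow, eval_X]
      exact ha⟩
  refine h.subset ?_
  intro t ht heq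
  apply ht
  refine ⟨⟨rfl, rfl, rfl⟩, ?_⟩
  rw [smul_e] at heq
  rw [WW_eq_line]
  exact heq

theorem not_hasProduct (t₀ : ℂ) (h0 : t₀ ≠ 0) (h1 : t₀ ≠ 1) (ht₀ : ![t₀, 0, 0, 0] ∈ Eqs WW VV) :
    ¬ HasProduct blowUpChart (Eqs WW VV) (VS ∩ blowUpChart ⁻¹' (Eqs WW VV)) ![t₀, 0, 0, 0] := by
  rintro ⟨N₁, N₂, N₃, ⟨hN₁s, hN₁m, hN₁⟩, ⟨hN₂s, hN₂m, hN₂⟩, ⟨hN₃s, hN₃m, hN₃⟩, φ,
    ⟨hmaps, hφ, ψ, hψmaps, hψ, hinv, hinv'⟩, hT⟩
  have hTq : ∀ t x y : ℂ, blowUpChart ![t, x, y, 0] = ![t, 0, 0, 0] := by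
    intro t x y
    funext j
    fin_cases j <;> simp [blowUpChart]
  rw [hTq] at hN₁m hN₁
  have hcont : Continuous fun t : ℂ => (![t, 0, 0, 0] : Fin 4 → ℂ) := by
    refine continuous_pi fun i => ?_
    fin_cases i
    · exact continuous_id
    · exact continuous_const
    · exact continuous_const
    · exact continuous_const
  have hev : ∀ᶠ t : ℂ in 𝓝 t₀, (![t, 0, 0, 0] : Fin 4 → ℂ) ∈ N₁ := by
    have h2 : Filter.Tendsto (fun t : ℂ => (![t, 0, 0, 0] : Fin 4 → ℂ)) (𝓝 t₀)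
        (𝓝[Eqs WW VV] ![t₀, 0, 0, 0]) := by
      rw [tendsto_nhdsWithin_iff]
      refine ⟨hcont.tendsto t₀, ?_⟩
      have h3 : {t : ℂ | ![t, 0, 0, 0] ∉ Eqs WW VV}ᶜ ∈ 𝓝 t₀ :=
        finite_not_Eqs.isClosed.isOpen_compl.mem_nhds (fun h => h ht₀)
      filter_upwards [h3] with t ht
      by_contra hcon
      exact ht hcon
    exact h2 hN₁
  apply not_eventually_invariants_eq t₀ h0 h1
  filter_upwards [hev, eventually_ne_nhds h0, eventually_ne_nhds h1] with t ht ht0 ht1
  refine rigid t₀ t h0 h1 ht0 ht1 _ N₂ N₃ (N₁ ×ˢ N₂) ![t, 0, 0, 0] φ ψ hN₂ hN₂m ?_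
    (fun q hq => ⟨ht, hq⟩) hmaps hφ hψ hinv ?_
  · intro x y hxy
    refine ⟨?_, ?_, ?_⟩
    · rw [Set.mem_preimage, hTq, hTq]
      exact Set.mem_singleton _
    · rw [mem_VS, map_add, eval_GP, eval_X]
      simpa using hxy
    · rw [Set.mem_preimage, hTq]
      exact ht₀
  · intro q hq
    have hp : ((![t, 0, 0, 0] : Fin 4 → ℂ), q) ∈ N₁ ×ˢ N₂ := ⟨ht, hq⟩
    have h2 := hT _ hp
    have h3 := hN₃s (hmaps hp)
    have h4 := (mem_VS _).1 h3.1
    rw [map_add, eval_GP, eval_X] at h4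
    have h5 : φ (![t, 0, 0, 0], q) 0 = t := congrFun h2 0
    have h6 : φ (![t, 0, 0, 0], q) 3 = 0 := congrFun h2 3
    rw [h5, h6, add_zero] at h4
    exact ⟨h5, h6, h4⟩

end Pool.Agent.W459.ZE
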