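import Pool.Agent.W459.ZE.Defs
import Pool.Agent.W459.ZE.Coord

set_option autoImplicit false

/-!
# The generic projection: basic properties
-/

open MvPolynomial

namespace Pool.Agent.W459.ZE

section

variable {K : Type} [Field K] {r : ℕ}

theorem polyEmb_injective : Function.Injective (polyEmb K r) := by
  unfold polyEmb
  rw [RingHom.coe_comp]
  exact (algebraMap (FractionRing (MvPolynomial (Fin r × Fin (r + 1)) K))
    (Kstar K r)).injective.comp (IsFractionRing.injective _ _)

theorem emb_injective : Function.Injective (emb K r) := (emb K r).injective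

theorem charZero_Kstar [CharZero K] : CharZero (Kstar K r) :=
  charZero_of_injective_ringHom (emb_injective (K := K) (r := r))

theorem eval_embPt_map (a : Fin (r + 1) → K) (h : MvPolynomial (Fin (r + 1)) K) :
    eval (embPt a) (map (emb K r) h) = emb K r (eval a h) := by
  rw [← eval₂_eq_eval_map, eval, coe_eval₂Hom, eval₂_comp_left]
  rfl

/-- The square matrix whose rows are the `u_i` and the last unit vector. -/
theorem exists_inverse : ∃ (S : Fin r → Fin (r + 1) → Kstar K r) (e τ : Fin (r + 1) → Kstar K r),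
    (∀ i, ∑ j, polyEmb K r (X (i, j)) * e j = 0) ∧ (∑ j, τ j * e j = 1) ∧
    ∀ j k, ∑ i, S i j * polyEmb K r (X (i, k)) + e j * τ k = if j = k then 1 else 0 := by
  classical
  let M₀ : Matrix (Fin (r + 1)) (Fin (r + 1)) (MvPolynomial (Fin r × Fin (r + 1)) K) :=
    fun i => Fin.lastCases (motive := fun _ => Fin (r + 1) → MvPolynomial (Fin r × Fin (r + 1)) K)
      (fun j => if Fin.last r = j then 1 else 0) (fun i' j => X (i', j)) i
  have hM₀last : ∀ j, M₀ (Fin.last r) j = if Fin.last r = j then 1 else 0 := fun j => by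
    simp only [M₀, Fin.lastCases_last]
  have hM₀c : ∀ (i : Fin r) j, M₀ i.castSucc j = X (i, j) := fun i j => by
    simp only [M₀, Fin.lastCases_castSucc]
  have hdet₀ : M₀.det ≠ 0 := by
    intro h
    let ε : MvPolynomial (Fin r × Fin (r + 1)) K →+* K :=
      eval (fun p => if p.1.castSucc = p.2 then 1 else 0)
    have h1 : ε M₀.det = (ε.mapMatrix M₀).det := RingHom.map_det ε M₀
    have h2 : ε.mapMatrix M₀ = 1 := by
      ext i j
      rw [RingHom.mapMatrix_apply, Matrix.map_apply, Matrix.one_apply]
      refine Fin.lastCases ?_ (fun i' => ?_) i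
      · rw [hM₀last]
        split_ifs <;> simp
      · rw [hM₀c]
        change eval _ (X (i', j)) = _
        rw [eval_X]
    rw [h, map_zero, h2, Matrix.det_one] at h1
    exact zero_ne_one h1
  let M : Matrix (Fin (r + 1)) (Fin (r + 1)) (Kstar K r) := (polyEmb K r).mapMatrix M₀
  have hdet : IsUnit M.det := by
    rw [isUnit_iff_ne_zero]
    intro h
    apply hdet₀
    apply polyEmb_injective (K := K) (r := r)
    rw [map_zero, RingHom.map_det]
    exact h
  have hMc : ∀ (i : Fin r) j, M i.castSucc j = polyEmb K r (X (i, j)) := fun i j => by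
    change polyEmb K r (M₀ i.castSucc j) = _
    rw [hM₀c]
  have h1 : M * M⁻¹ = 1 := Matrix.mul_nonsing_inv M hdet
  have h2 : M⁻¹ * M = 1 := Matrix.nonsing_inv_mul M hdet
  refine ⟨fun i j => M⁻¹ j i.castSucc, fun j => M⁻¹ j (Fin.last r), fun j => M (Fin.last r) j,
    ?_, ?_, ?_⟩
  · intro i
    have := congrFun (congrFun h1 i.castSucc) (Fin.last r)
    rw [Matrix.mul_apply, Matrix.one_apply, if_neg (Fin.castSucc_lt_last i).ne] at this
    simpa [hMc] using this
  · have := congrFun (congrFun h1 (Fin.last r)) (Fin.last r)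
    rw [Matrix.mul_apply, Matrix.one_apply, if_pos rfl] at this
    exact this
  · intro j k
    have := congrFun (congrFun h2 j) k
    rw [Matrix.mul_apply, Matrix.one_apply, Fin.sum_univ_castSucc] at this
    simpa [hMc] using this

/-- The branch locus is contained in a hypersurface. -/
theorem exists_branch_eq [CharZero K] (V : Set (Fin (r + 1) → K))
    (h₀ : MvPolynomial (Fin (r + 1)) K) (hh₀ : h₀ ≠ 0) (hV : ∀ a ∈ V, eval a h₀ = 0) :
    ∃ b : MvPolynomial (Fin r) (Kstar K r), b ≠ 0 ∧ ∀ y ∈ branch V, eval y b = 0 := by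
  have := charZero_Kstar (K := K) (r := r)
  obtain ⟨S, e, τ, h1, h2, h3⟩ := exists_inverse (K := K) (r := r)
  obtain ⟨b, h, α, β, hb, hh, hx⟩ := exists_coord (fun i j => polyEmb K r (X (i, j))) τ S e h1 h2 h3
    (embPt '' V) (map (emb K r) h₀) (by
      intro h0
      apply hh₀
      apply MvPolynomial.map_injective _ (emb_injective (K := K) (r := r))
      rw [h0, map_zero]) (by
      rintro _ ⟨a, ha, rfl⟩
      rw [eval_embPt_map, hV a ha, map_zero])
  refine ⟨b, hb, ?_⟩
  rintro y ⟨x, hxV, rfl, hcrit⟩
  have h4 := hx x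
  rw [hxV h hh, hcrit h (fun a ha => hh _ ⟨a, ha, rfl⟩) e (funext h1), mul_zero, mul_zero,
    add_zero] at h4
  exact h4

/-- Coefficientwise application of a `K`-linear form to a polynomial over an extension field. -/
theorem exists_coeff_form {L : Type} [Field L] [Algebra K L] {n : ℕ} (φ : L →ₗ[K] K)
    (h : MvPolynomial (Fin n) L) :
    ∃ g : MvPolynomial (Fin n) K,
      (∀ a : Fin n → K, eval a g = φ (eval (fun j => algebraMap K L (a j)) h)) ∧
      ∀ (a : Fin n → K) (i : Fin n), eval a (pderiv i g) =
        φ (eval (fun j => algebraMap K L (a j)) (pderiv i h)) := by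
  induction h using MvPolynomial.induction_on' with
  | add p q hp hq =>
    obtain ⟨g, hg1, hg2⟩ := hp
    obtain ⟨g', hg1', hg2'⟩ := hq
    refine ⟨g + g', fun a => ?_, fun a i => ?_⟩
    · rw [map_add, map_add, map_add, hg1, hg1']
    · rw [map_add, map_add, map_add, map_add, map_add, hg2, hg2']
  | monomial m c =>
    have key : ∀ (a : Fin n → K) (s : Fin n →₀ ℕ) (d : L),
        eval a (monomial s (φ d)) = φ (eval (fun j => algebraMap K L (a j)) (monomial s d)) := by
      intro a s d
      rw [eval_monomial, eval_monomial]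
      have : (s.prod fun i e => algebraMap K L (a i) ^ e) =
          algebraMap K L (s.prod fun i e => a i ^ e) := by
        rw [Finsupp.prod, Finsupp.prod, map_prod]
        simp_rw [map_pow]
      rw [this, mul_comm d, ← Algebra.smul_def, map_smul, smul_eq_mul, mul_comm]
    refine ⟨monomial m (φ c), fun a => ?_, fun a i => ?_⟩
    · rw [key]
    · rw [pderiv_monomial, pderiv_monomial]
      have h1 : φ c * (m i : K) = φ (c * (m i : L)) := by
        rw [mul_comm c, ← map_natCast (algebraMap K L), ← Algebra.smul_def, map_smul, smul_eq_mul,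
          mul_comm]
      rw [h1, key]

/-- At a nonsimple point of `V` all derivatives of all polynomials over `K^*` which vanish on `V`
are zero. -/
theorem pderiv_eq_zero_of_not_simple (V : Set (Fin (r + 1) → K)) (w : Fin (r + 1) → K) (hw : w ∈ V)
    (hns : ¬ IsSimple V w) (h : MvPolynomial (Fin (r + 1)) (Kstar K r))
    (hh : ∀ a ∈ V, eval (embPt a) h = 0) (i : Fin (r + 1)) :
    eval (embPt w) (pderiv i h) = 0 := by
  by_contra hne
  let _ : Algebra K (Kstar K r) := (emb K r).toAlgebra
  have h0 := (Module.forall_dual_apply_eq_zero_iff K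
    (eval (embPt w) (pderiv i h) : Kstar K r)).not.2 hne
  push Not at h0
  obtain ⟨φ, hφ⟩ := h0
  obtain ⟨g, hg1, hg2⟩ := exists_coeff_form φ h
  apply hns
  refine ⟨hw, g, fun a ha => ?_, i, ?_⟩
  · rw [hg1]
    have : eval (fun j => algebraMap K (Kstar K r) (a j)) h = 0 := hh a ha
    rw [this, map_zero]
  · rw [hg2]
    exact hφ

theorem proj_mem_branch (V : Set (Fin (r + 1) → K)) (w : Fin (r + 1) → K) (hw : w ∈ V)
    (hns : ¬ IsSimple V w) : proj (embPt w) ∈ branch V := by
  refine ⟨embPt w, fun h hh => hh _ ⟨w, hw, rfl⟩, rfl, fun h hh v _ => ?_⟩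
  refine Finset.sum_eq_zero fun i _ => ?_
  rw [pderiv_eq_zero_of_not_simple V w hw hns h hh i, zero_mul]

end

end Pool.Agent.W459.ZE
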