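import Pool.Agent.W459.ZE.Generic

set_option autoImplicit false

/-!
# A hypersurface is equisingular along a line at all but finitely many points of the line
-/

open MvPolynomial

namespace Pool.Agent.W459.ZE

section

variable {K : Type} [Field K]

/-- The line through the origin with direction `B`. -/
def line {n : ℕ} (B : Fin n → K) : Set (Fin n → K) := {x | ∃ t : K, x = t • B}

theorem exists_univ {n : ℕ} (h : MvPolynomial (Fin n) K) (B : Fin n → K) :
    ∃ p : Polynomial K, ∀ t : K, p.eval t = eval (t • B) h := by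
  induction h using MvPolynomial.induction_on with
  | C c => exact ⟨Polynomial.C c, fun t => by simp⟩
  | add p q hp hq =>
    obtain ⟨p', hp'⟩ := hp
    obtain ⟨q', hq'⟩ := hq
    exact ⟨p' + q', fun t => by rw [Polynomial.eval_add, hp', hq', map_add]⟩
  | mul_X p i hp =>
    obtain ⟨p', hp'⟩ := hp
    exact ⟨p' * (Polynomial.X * Polynomial.C (B i)), fun t => by
      rw [Polynomial.eval_mul, hp', map_mul, eval_X, Polynomial.eval_mul, Polynomial.eval_X,
        Polynomial.eval_C, Pi.smul_apply, smul_eq_mul]⟩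

variable {r : ℕ}

theorem proj_embPt_smul (t : K) (B : Fin (r + 1) → K) :
    proj (embPt (t • B)) = emb K r t • proj (embPt B) := by
  funext i
  simp only [proj, embPt, Pi.smul_apply, smul_eq_mul, map_mul, Finset.mul_sum]
  refine Finset.sum_congr rfl fun j _ => ?_
  ring

theorem eval_smul_embPt_eq_zero [CharZero K] (h : MvPolynomial (Fin (r + 1)) (Kstar K r))
    (B : Fin (r + 1) → K) (hh : ∀ t : K, eval (embPt (t • B)) h = 0) (τ : Kstar K r) :
    eval (τ • embPt B) h = 0 := by
  obtain ⟨p, hp⟩ := exists_univ h (embPt B : Fin (r + 1) → Kstar K r)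
  have hp0 : p = 0 := by
    apply Polynomial.eq_zero_of_infinite_isRoot
    have hinf : (Set.range (emb K r)).Infinite :=
      Set.infinite_range_of_injective (emb_injective (K := K) (r := r))
    refine hinf.mono ?_
    rintro _ ⟨t, rfl⟩
    change p.eval _ = 0
    rw [hp]
    have : emb K r t • embPt B = embPt (t • B) := by
      funext j
      simp [embPt]
    rw [this]
    exact hh t
  rw [← hp, hp0, Polynomial.eval_zero]

theorem proj_embPt_ne_zero (hr : 0 < r) (B : Fin (r + 1) → K) (hB : B ≠ 0) :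
    proj (embPt B) ≠ 0 := by
  intro h
  obtain ⟨j, hj⟩ : ∃ j, B j ≠ 0 := by
    by_contra hcon
    push Not at hcon
    exact hB (funext hcon)
  have h0 := congrFun h ⟨0, hr⟩
  have h1 : polyEmb K r (∑ k, X ((⟨0, hr⟩ : Fin r), k) * C (B k)) = 0 := by
    rw [map_sum]
    simp only [map_mul]
    exact h0
  have h2 := polyEmb_injective (K := K) (r := r) (h1.trans (map_zero _).symm)
  have h3 := congrArg (eval (fun p : Fin r × Fin (r + 1) => if p.2 = j then (1 : K) else 0)) h2
  rw [map_sum, map_zero] at h3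
  simp only [map_mul, eval_X, eval_C, ite_mul, one_mul, zero_mul, Finset.sum_ite_eq',
    Finset.mem_univ, if_true] at h3
  exact hj h3

theorem projSet_line [CharZero K] (B : Fin (r + 1) → K) (hB : proj (embPt B) ≠ 0) :
    projSet (line B) = line (proj (embPt B)) := by
  obtain ⟨i₀, hi₀⟩ : ∃ j, proj (embPt B) j ≠ 0 := by
    by_contra hcon
    push Not at hcon
    exact hB (funext hcon)
  apply Set.Subset.antisymm
  · intro x hx
    refine ⟨x i₀ / proj (embPt B) i₀, ?_⟩
    funext j
    have h1 := hx (X j * C (proj (embPt B) i₀) - X i₀ * C (proj (embPt B) j)) (by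
      rintro _ ⟨_, ⟨t, rfl⟩, rfl⟩
      simp only [proj_embPt_smul, map_sub, map_mul, eval_X, eval_C, Pi.smul_apply, smul_eq_mul]
      ring)
    simp only [map_sub, map_mul, eval_X, eval_C] at h1
    rw [Pi.smul_apply, smul_eq_mul]
    field_simp
    linear_combination h1
  · rintro x ⟨τ, rfl⟩ h hh
    obtain ⟨p, hp⟩ := exists_univ h (proj (embPt B) : Fin r → Kstar K r)
    have hp0 : p = 0 := by
      apply Polynomial.eq_zero_of_infinite_isRoot
      have hinf : (Set.range (emb K r)).Infinite :=
        Set.infinite_range_of_injective (emb_injective (K := K) (r := r))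
      refine hinf.mono ?_
      rintro _ ⟨t, rfl⟩
      change p.eval _ = 0
      rw [hp, ← proj_embPt_smul]
      exact hh _ ⟨t • B, ⟨t, rfl⟩, rfl⟩
    rw [← hp, hp0, Polynomial.eval_zero]

theorem smul_mem_branch [CharZero K] (V : Set (Fin (r + 1) → K)) (B : Fin (r + 1) → K)
    (hV : ∀ t : K, t • B ∈ V) (hns : ∀ t : K, ¬ IsSimple V (t • B)) (τ : Kstar K r) :
    τ • proj (embPt B) ∈ branch V := by
  refine ⟨τ • embPt B, ?_, ?_, ?_⟩
  · intro h hh
    exact eval_smul_embPt_eq_zero h B (fun t => hh _ ⟨_, hV t, rfl⟩) τ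
  · funext i
    simp only [proj, Pi.smul_apply, smul_eq_mul, Finset.mul_sum]
    refine Finset.sum_congr rfl fun j _ => ?_
    ring
  · intro h hh v _
    refine Finset.sum_eq_zero fun i _ => ?_
    rw [eval_smul_embPt_eq_zero (pderiv i h) B (fun t =>
      pderiv_eq_zero_of_not_simple V _ (hV t) (hns t) h hh i) τ, zero_mul]

/-- Plane curves. -/
theorem finite_not_simple_plane [CharZero K] (V : Set (Fin 2 → K)) (B : Fin 2 → K) (hB : B ≠ 0)
    (hV : ∀ t : K, t • B ∈ V) (h₀ : MvPolynomial (Fin 2) K) (hh₀ : h₀ ≠ 0)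
    (hV₀ : ∀ a ∈ V, eval a h₀ = 0) : {t : K | ¬ IsSimple V (t • B)}.Finite := by
  obtain ⟨P, τ, e, hPB, h1, h2, h3⟩ : ∃ P τ e : Fin 2 → K, (∑ j, P j * B j = 1) ∧
      (∑ j, P j * e j = 0) ∧ (∑ j, τ j * e j = 1) ∧
      ∀ j k, B j * P k + e j * τ k = if j = k then 1 else 0 := by
    by_cases hB0 : B 0 = 0
    · have hB1 : B 1 ≠ 0 := by
        intro h
        apply hB
        funext j
        fin_cases j
        · exact hB0
        · exact h
      refine ⟨![0, 1 / B 1], ![1, 0], ![1, 0], ?_, ?_, ?_, ?_⟩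
      · simp [hB1]
      · simp
      · simp
      · intro j k
        fin_cases j <;> fin_cases k <;> simp [hB0, hB1]
    · refine ⟨![1 / B 0, 0], ![-B 1 / B 0, 1], ![0, 1], ?_, ?_, ?_, ?_⟩
      · simp [hB0]
      · simp
      · simp
      · intro j k
        fin_cases j <;> fin_cases k <;> simp [hB0]
        field_simp
        ring
  obtain ⟨b, h, α, β, hb, hh, hx⟩ := exists_coord (m := 1) (fun _ => P) τ (fun _ => B) e
    (fun _ => h1) h2 (by intro j k; rw [Fin.sum_univ_one]; exact h3 j k) V h₀ hh₀ hV₀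
  obtain ⟨p, hp⟩ := exists_univ b (fun _ => (1 : K))
  have hp0 : p ≠ 0 := by
    rintro rfl
    apply hb
    apply MvPolynomial.funext
    intro x
    have := hp (x 0)
    rw [Polynomial.eval_zero] at this
    rw [map_zero]
    have hxx : x = x 0 • (fun _ => (1 : K)) := by
      funext j
      rw [Subsingleton.elim j 0]
      simp
    rw [hxx]
    simpa using this.symm
  refine (Polynomial.finite_setOfPred_isRoot hp0).subset ?_
  intro t ht
  by_contra hroot
  apply ht
  refine ⟨hV t, h, hh, ?_⟩
  by_contra hcon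
  push Not at hcon
  apply hroot
  change p.eval t = 0
  have h4 := hx (t • B)
  have h5 : ∑ j, eval (t • B) (pderiv j h) * e j = 0 :=
    Finset.sum_eq_zero fun j _ => by rw [hcon j, zero_mul]
  rw [hh _ (hV t), mul_zero, zero_add, h5, mul_zero] at h4
  rw [hp]
  rw [← h4]
  congr 2
  funext i
  simp only [Pi.smul_apply, smul_eq_mul, mul_one]
  calc t = t * ∑ j, P j * B j := by rw [hPB, mul_one]
    _ = _ := by
      rw [Finset.mul_sum]
      refine Finset.sum_congr rfl fun j _ => ?_
      ring

end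

theorem finite_not_equisingular (m : ℕ) : ∀ (K : Type) [Field K] [CharZero K]
    (V : Set (Fin (m + 2) → K)) (B : Fin (m + 2) → K), B ≠ 0 → (∀ t : K, t • B ∈ V) →
    (∃ h₀ : MvPolynomial (Fin (m + 2)) K, h₀ ≠ 0 ∧ ∀ a ∈ V, eval a h₀ = 0) →
    {t : K | ¬ Equisingular (m + 2) K V (line B) (t • B)}.Finite := by
  induction m with
  | zero =>
    rintro K _ _ V B hB hV ⟨h₀, hh₀, hV₀⟩
    refine (finite_not_simple_plane V B hB hV h₀ hh₀ hV₀).subset ?_
    intro t ht hs
    exact ht (Or.inl ⟨⟨_, ⟨t, rfl⟩, hs⟩, hs⟩)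
  | succ m ih =>
    rintro K _ _ V B hB hV ⟨h₀, hh₀, hV₀⟩
    by_cases hsimple : ∃ t : K, IsSimple V (t • B)
    · obtain ⟨t₁, ht₁⟩ := hsimple
      obtain ⟨_, h, hh, i, hi⟩ := id ht₁
      obtain ⟨p, hp⟩ := exists_univ (pderiv i h) B
      have hp0 : p ≠ 0 := by
        rintro rfl
        apply hi
        rw [← hp, Polynomial.eval_zero]
      refine (Polynomial.finite_setOfPred_isRoot hp0).subset ?_
      intro t ht
      by_contra hroot
      apply ht
      refine Or.inl ⟨⟨_, ⟨t₁, rfl⟩, ht₁⟩, hV t, h, hh, i, ?_⟩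
      rw [← hp]
      exact hroot
    · push Not at hsimple
      have := charZero_Kstar (K := K) (r := m + 2)
      have hB' := proj_embPt_ne_zero (r := m + 2) (by omega) B hB
      obtain ⟨b, hb, hbV⟩ := exists_branch_eq V h₀ hh₀ hV₀
      have hfin := ih (Kstar K (m + 2)) (branch V) (proj (embPt B)) hB'
        (smul_mem_branch V B hV hsimple) ⟨b, hb, hbV⟩
      refine (hfin.preimage (emb_injective (K := K) (r := m + 2)).injOn).subset ?_
      intro t ht
      rw [Set.mem_preimage, Set.mem_ofPred_eq]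
      intro heq
      apply ht
      refine Or.inr ⟨?_, ?_⟩
      · rintro x ⟨s, rfl⟩
        exact hsimple s
      · rw [projSet_line B hB', proj_embPt_smul]
        exact heq

end Pool.Agent.W459.ZE
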