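import Mathlib

set_option autoImplicit false

/-!
# A radical ideal of `R[X]` and derivatives
-/

open Polynomial

namespace Pool.Agent.W459.ZE

/-- Clearing denominators. -/
theorem exists_clear {R : Type*} [CommRing R] [IsDomain R] (q : (FractionRing R)[X]) :
    ∃ (c : R) (q₀ : R[X]), c ≠ 0 ∧
      q₀.map (algebraMap R (FractionRing R)) = C (algebraMap R (FractionRing R) c) * q := by
  obtain ⟨b, hbm, hb⟩ := IsLocalization.integerNormalization_spec (nonZeroDivisors R) q
  refine ⟨b, IsLocalization.integerNormalization (nonZeroDivisors R) q,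
    nonZeroDivisors.ne_zero hbm, ?_⟩
  rw [hb, ← algebraMap_smul (FractionRing R), Polynomial.smul_eq_C_mul]

/-- A nonzero radical ideal of `R[X]` contains an element `H` such that some nonzero constant is a
combination of `H` and its derivative. -/
theorem exists_const_combination {R : Type*} [CommRing R] [IsDomain R] [CharZero R]
    (J : Ideal R[X]) (hJ : J.IsRadical) (hne : J ≠ ⊥) :
    ∃ H ∈ J, ∃ α β : R[X], ∃ b : R, b ≠ 0 ∧ C b = α * H + β * derivative H := by
  classical
  -- an element of minimal degree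
  have hex : ∃ d : ℕ, ∃ H ∈ J, H ≠ 0 ∧ H.natDegree = d := by
    obtain ⟨H, hH, hH0⟩ := Submodule.exists_mem_ne_zero_of_ne_bot hne
    exact ⟨_, H, hH, hH0, rfl⟩
  obtain ⟨H, hHJ, hH0, hHd⟩ := Nat.find_spec hex
  have hmin : ∀ G ∈ J, G ≠ 0 → H.natDegree ≤ G.natDegree := by
    intro G hG hG0
    rw [hHd]
    exact Nat.find_min' hex ⟨G, hG, hG0, rfl⟩
  set F := FractionRing R
  set ι : R →+* F := algebraMap R F with hι
  have hinj : Function.Injective ι := IsFractionRing.injective R F
  have hmapinj : Function.Injective (Polynomial.map ι) := Polynomial.map_injective ι hinj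
  have : CharZero F := charZero_of_injective_ringHom hinj
  have hHF0 : H.map ι ≠ 0 := by
    rw [Ne, Polynomial.map_eq_zero_iff hinj]; exact hH0
  have hsq : Squarefree (H.map ι) := by
    intro q hq
    obtain ⟨e, he⟩ := hq
    have hq0 : q ≠ 0 := by
      rintro rfl
      apply hHF0
      rw [he]; ring
    have he0 : e ≠ 0 := by
      rintro rfl
      apply hHF0
      rw [he]; ring
    by_contra hunit
    have hdq : 0 < q.natDegree := by
      rcases Nat.eq_zero_or_pos q.natDegree with h | h
      · exfalso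
        apply hunit
        rw [Polynomial.eq_C_of_natDegree_eq_zero h]
        rw [Polynomial.isUnit_C, isUnit_iff_ne_zero]
        intro h0
        apply hq0
        rw [Polynomial.eq_C_of_natDegree_eq_zero h, h0, C_0]
      · exact h
    obtain ⟨c₁, q₀, hc₁, hq₀⟩ := exists_clear q
    obtain ⟨c₂, e₀, hc₂, he₀⟩ := exists_clear e
    have hkey : C (c₁ * c₁ * c₂) * H = q₀ * q₀ * e₀ := by
      apply hmapinj
      rw [Polynomial.map_mul, Polynomial.map_mul, Polynomial.map_mul, hq₀, he₀, he,
        Polynomial.map_C]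
      simp only [map_mul]
      ring
    have hmem : q₀ * e₀ ∈ J := by
      apply hJ
      refine ⟨2, ?_⟩
      have : (q₀ * e₀) ^ 2 = (C (c₁ * c₁ * c₂) * e₀) * H := by
        calc (q₀ * e₀) ^ 2 = (q₀ * q₀ * e₀) * e₀ := by ring
          _ = _ := by rw [← hkey]; ring
      rw [this]
      exact J.mul_mem_left _ hHJ
    have hq₀0 : q₀ ≠ 0 := by
      rintro rfl
      rw [Polynomial.map_zero] at hq₀
      have := hq₀.symm
      rw [mul_eq_zero, C_eq_zero, map_eq_zero_iff ι hinj] at this
      rcases this with h | h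
      · exact hc₁ h
      · exact hq0 h
    have he₀0 : e₀ ≠ 0 := by
      rintro rfl
      rw [Polynomial.map_zero] at he₀
      have := he₀.symm
      rw [mul_eq_zero, C_eq_zero, map_eq_zero_iff ι hinj] at this
      rcases this with h | h
      · exact hc₂ h
      · exact he0 h
    have hd := hmin _ hmem (mul_ne_zero hq₀0 he₀0)
    have hdeg := congrArg Polynomial.natDegree hkey
    have hc : c₁ * c₁ * c₂ ≠ 0 := mul_ne_zero (mul_ne_zero hc₁ hc₁) hc₂
    rw [Polynomial.natDegree_C_mul hc, Polynomial.natDegree_mul (mul_ne_zero hq₀0 hq₀0) he₀0,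
      Polynomial.natDegree_mul hq₀0 hq₀0] at hdeg
    rw [Polynomial.natDegree_mul hq₀0 he₀0] at hd
    have hdq₀ : q₀.natDegree = q.natDegree := by
      have h1 := congrArg Polynomial.natDegree hq₀
      rw [Polynomial.natDegree_map_eq_of_injective hinj,
        Polynomial.natDegree_C_mul (by rw [Ne, map_eq_zero_iff ι hinj]; exact hc₁)] at h1
      exact h1
    omega
  have hsep : (H.map ι).Separable := by
    rw [PerfectField.separable_iff_squarefree]
    exact hsq
  obtain ⟨a, b, hab⟩ := hsep
  obtain ⟨c₁, a₀, hc₁, ha₀⟩ := exists_clear a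
  obtain ⟨c₂, b₀, hc₂, hb₀⟩ := exists_clear b
  refine ⟨H, hHJ, C c₂ * a₀, C c₁ * b₀, c₁ * c₂, mul_ne_zero hc₁ hc₂, ?_⟩
  apply hmapinj
  rw [Polynomial.map_add, Polynomial.map_mul, Polynomial.map_mul, Polynomial.map_mul,
    Polynomial.map_mul, ha₀, hb₀, Polynomial.map_C, Polynomial.map_C, Polynomial.map_C,
    ← Polynomial.derivative_map]
  simp only [map_mul]
  calc C (ι c₁) * C (ι c₂) = C (ι c₁) * C (ι c₂) * (a * H.map ι + b * derivative (H.map ι)) := by
        rw [hab, mul_one]
    _ = _ := by ring

end Pool.Agent.W459.ZE
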